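import Mathlib
import Pool.Agent.R439.WPB

set_option autoImplicit false

namespace Pool.Agent.Results.MP_dcacaa_nt.MinusOneSum

open Finset Polynomial Pool.Agent.R439

/-- The sum `S_{d,n}(q)` of the problem. -/
noncomputable def S (d n : ℕ) : K :=
  ∑ k ∈ range n, q ^ (d * (d - 1) * k / 2) * qint (2 * (d : ℤ) * k - 1) *
    (poch (q⁻¹) (q ^ d) k / poch (q ^ d) (q ^ d) k) ^ d

theorem S_eq {d e : ℕ} (hde : d = 2 * e + 1) (n : ℕ) :
    S d n = (∑ k ∈ range n, TA d (-1) e k) * (1 - q)⁻¹ := by
  rw [S, sum_mul]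
  refine sum_congr rfl fun k _ => ?_
  have h1 : d * (d - 1) * k / 2 = d * (k * e) := by
    have : d * (d - 1) * k = 2 * (d * (k * e)) := by
      rw [hde, Nat.add_sub_cancel]; ring
    rw [this, Nat.mul_div_cancel_left _ two_pos]
  have h2 : (-1 : ℤ) + 2 * d * k = 2 * d * k - 1 := by ring
  rw [TA, rho, qint, h1, zpow_neg_one, h2, pow_mul, pow_mul]
  ring

/-- **Answer to Q1**: for every odd `d ≥ 5` and every `n > 1`, the sum is divisible by `Φ_n(q)^3`
if `n ≡ 1 (mod d)` and by `Φ_n(q)^4` if `2n ≡ 1 (mod d)`. -/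
theorem result : ∀ d n : ℕ, Odd d → 5 ≤ d → 1 < n →
    (n ≡ 1 [MOD d] → Cong (cyclotomic n ℚ ^ 3) (S d n) 0) ∧
      (2 * n ≡ 1 [MOD d] → Cong (cyclotomic n ℚ ^ 4) (S d n) 0) := by
  intro d n hd hd5 hn
  have : NeZero n := ⟨by omega⟩
  obtain ⟨c, hc⟩ := hd
  have hU : U n (1 - q) := by
    have := U_one_sub (n := n) (e := 1) (fun h => by
      have := Int.le_of_dvd one_pos h
      omega)
    rwa [zpow_one] at this
  constructor
  · intro hdn
    obtain ⟨u, hu⟩ := (Nat.modEq_iff_dvd' (by omega : 1 ≤ n)).1 hdn.symm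
    have hu0 : 0 < u := by
      rcases Nat.eq_zero_or_pos u with h | h
      · subst h; omega
      · exact h
    have hle : 5 * u ≤ d * u := Nat.mul_le_mul_right u hd5
    have hu2 : u ≤ n := by omega
    have D : Data n d u (n - u) (c - 2) c (-1) 1 :=
      { hn := hn
        hd := by omega
        hs := Or.inl rfl
        hr := Or.inr rfl
        hu := by
          have : ((n - 1 : ℕ) : ℤ) = d * u := by exact_mod_cast hu
          rw [← this]; push_cast [(by omega : 1 ≤ n)]; ring
        hM := by omega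
        he := by rw [hc]; push_cast; ring }
    have h1 := D.full.1
    rw [Cong, sub_zero, S_eq (e := c) (by omega)]
    exact num_of_I (h1.mulR hU.2.2)
  · intro hdn
    obtain ⟨u, hu⟩ := (Nat.modEq_iff_dvd' (by omega : 1 ≤ 2 * n)).1 hdn.symm
    have hu0 : 0 < u := by
      rcases Nat.eq_zero_or_pos u with h | h
      · subst h; omega
      · exact h
    have hle : 5 * u ≤ d * u := Nat.mul_le_mul_right u hd5
    have hu2 : u ≤ n := by omega
    have D : Data n d u (n - u) (c - 2) c (-1) 2 :=
      { hn := hn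
        hd := by omega
        hs := Or.inr rfl
        hr := Or.inr rfl
        hu := by
          have : ((2 * n - 1 : ℕ) : ℤ) = d * u := by exact_mod_cast hu
          rw [← this]; push_cast [(by omega : 1 ≤ 2 * n)]; ring
        hM := by omega
        he := by rw [hc]; push_cast; ring }
    have h1 := D.full.2 rfl
    rw [Cong, sub_zero, S_eq (e := c) (by omega)]
    exact num_of_I (h1.mulR hU.2.2)

end Pool.Agent.Results.MP_dcacaa_nt.MinusOneSum
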